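import Pool.Agent.Lib.MP_559647_lc.P65Main

/-!
On a hereditary class of graphs of bounded degree whose shallow minors are sparse, a locally
checkable labelling problem with a fast enough randomized algorithm for one number of nodes has a
deterministic algorithm with `O(log n + log* N)` rounds.
-/

namespace Pool.Agent.Results.MP_559647_lc.ExpansionGap

open MeasureTheory Pool.Agent.Lib.MP_559647_lc
open scoped ENNReal

theorem result : ∃ C : ℕ, ∀ (Δ p R n₀ : ℕ) (g : ℕ → ℕ),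
    (Δ + 2) ^ (C * (R + p + 1) * ∏ j ∈ Finset.range (Nat.log 2 (R + p + 1) + 1),
      (g (C * (R + p + 1) / 2 ^ j) + 2) ^ C) ≤ n₀ → ∃ K : ℕ,
    ∀ (Gr : (N : ℕ) → SimpleGraph (Fin N) → Prop), Hereditary Gr →
      (∀ N G, Gr N G → Expansion g G) → ∀ (L : Set ℕ)
      (acc : (N : ℕ) → Inst N → (Fin N → ℕ) → Fin N → Prop), Checker p acc →
      ∀ (M : ℕ), n₀ ≤ M → ∀ (Ω : Type) [MeasurableSpace Ω] (μ : Measure Ω)
        [IsProbabilityMeasure μ] (A : Inst M → (Fin M → Ω) → Fin M → ℕ), LocalWith R A →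
        (∀ I v, Measurable fun x => A I x v) →
        (∀ I : Inst M, I.S.card = n₀ → Deg Δ I → Gr M I.G → (∀ x ∈ I.S, I.inp x ∈ L) →
          (Measure.pi fun _ => μ) {x | ¬ ∀ v ∈ I.S, acc M I (A I x) v} ≤ 1 / (n₀ : ℝ≥0∞)) →
        ∀ n k N : ℕ, N ≤ tower k → ∃ B : Inst N → Fin N → ℕ,
          DetLocal (K * (Nat.log 2 n + k + 1)) B ∧ ∀ I : Inst N, I.S.card ≤ n → Deg Δ I →
            Gr N I.G → (∀ x ∈ I.S, I.inp x ∈ L) → ∀ v ∈ I.S, acc N I (B I) v := by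
  obtain ⟨C, hC⟩ : ∃ C, C = 109 * 70 := ⟨_, rfl⟩
  refine ⟨C, fun Δ p R n₀ g h => ?_⟩
  obtain ⟨P, hP⟩ : ∃ P, P = ∏ j ∈ Finset.range (Nat.log 2 (R + p + 1) + 1),
    (g (C * (R + p + 1) / 2 ^ j) + 2) ^ C := ⟨_, rfl⟩
  have h1 : 0 < P := hP ▸ Finset.prod_pos fun _ _ => by positivity
  rw [← hP] at h
  have h2 : Δ + 1 < 2 ^ (Nat.log 2 (Δ + 1) + 1) := Nat.lt_pow_succ_log_self (by norm_num) _
  have h3 : 2 ^ (Nat.log 2 (Δ + 1) + 1) ≤ (Δ + 2) ^ 2 := by
    have := Nat.pow_log_le_self 2 (Nat.succ_ne_zero Δ)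
    rw [pow_succ]
    nlinarith
  have h4 : R + p + 1 ≤ (R + p + 1) * P := Nat.le_mul_of_pos_right _ h1
  have h5 : ∀ x, 160 * x ≤ C * x := fun x => Nat.mul_le_mul_right _ (by omega)
  have h6 := h5 (R + p + 1)
  have h7 := h5 ((R + p + 1) * P)
  refine P65.main (s := C * (R + p + 1)) (P := P) (b := (Nat.log 2 (Δ + 1) + 1) * (2 * (R + p)))
    (by omega) (le_of_eq ?_) (lt_of_lt_of_le ?_ h) ?_ (le_trans ?_ h)
  · rw [hP]
    exact Finset.prod_congr rfl fun _ _ => by rw [← pow_mul, ← hC]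
  · rw [← pow_mul]
    refine (Nat.pow_lt_pow_left (Nat.lt_succ_self _) (by positivity)).trans_le
      (Nat.pow_le_pow_right (by omega) (Nat.mul_le_mul_right _ (by omega)))
  · rw [pow_mul 2]
    exact Nat.pow_le_pow_left h2.le _
  · rw [pow_add, mul_comm 4, mul_assoc, pow_mul]
    refine (Nat.mul_le_mul (Nat.pow_le_pow_left h3 _)
      (Nat.pow_le_pow_left (by omega : 2 ≤ Δ + 2) _)).trans ?_
    rw [← pow_mul, ← pow_add, mul_assoc C]
    exact Nat.pow_le_pow_right (by omega) (by omega)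

end Pool.Agent.Results.MP_559647_lc.ExpansionGap
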