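import Pool.Agent.Lib.MP_559647_lc.X55Box
import Pool.Agent.Lib.MP_559647_lc.X55Cost
import Pool.Agent.Lib.MP_559647_lc.V55Par

/-!
A locally checkable labelling problem on graphs of bounded degree whose randomized probe
complexity with a shared seed lies between `c log n / log log n` and
`C log n log* n / log log n = o(log n)`, and which needs `c √(n / log n)` rounds in the
deterministic LOCAL model.
-/

namespace Pool.Agent.Results.MP_559647_lc.ProbeThreshold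

open MeasureTheory Pool.Agent.Lib.MP_559647_lc
open scoped ENNReal Nat

theorem result : ∃ (Δ p q C : ℕ) (L : Finset ℕ)
    (acc : (N : ℕ) → Inst N → (Fin N → ℕ) → Fin N → Prop),
    Checker p acc ∧ (∀ N I o v, acc N I o v → o v < q) ∧
    (∀ m k M : ℕ, M ≤ tower k → ∃ (Ω : Type) (_ : MeasurableSpace Ω) (μ : Measure Ω)
      (_ : IsProbabilityMeasure μ) (A : Ω → Inst M → Fin M → ℕ),
      (∀ ω, Volume (C * (m + 1) * (k + 1)) (A ω) ∧ DetLocal (C * (m + 1) * (k + 1)) (A ω)) ∧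
      (∀ I v, Measurable fun ω => A ω I v) ∧ ∀ I : Inst M, Deg Δ I →
        μ {ω | ¬ ∀ v ∈ I.S, acc M I (A ω I) v} ≤ I.S.card / (m ! : ℝ≥0∞)) ∧
    (∀ n t M : ℕ, (t + 2) ^ (C * (t + 1)) ≤ n → n ≤ M →
      ∀ (Ω : Type) [MeasurableSpace Ω] (μ : Measure Ω) [IsProbabilityMeasure μ]
        (A : Ω → Inst M → Fin M → ℕ), (∀ ω, Probes t (A ω)) →
        (∀ I v, Measurable fun ω => A ω I v) →
        ∃ I : Inst M, I.S.card = n ∧ Deg Δ I ∧ (∀ x ∈ I.S, I.inp x ∈ L) ∧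
          1 / (n : ℝ≥0∞) < μ {ω | ¬ ∀ v ∈ I.S, acc M I (A ω I) v}) ∧
    ∀ r n N : ℕ, 11 * (r + 3) ^ 2 * Nat.clog 2 (r + 3) ≤ n → n ≤ N →
      ∀ B : Inst N → Fin N → ℕ, DetLocal r B →
        ∃ I : Inst N, I.S.card = n ∧ Deg Δ I ∧ (∀ x ∈ I.S, I.inp x ∈ L) ∧
          ¬ ∀ v ∈ I.S, acc N I (B I) v := by
  obtain ⟨C, hC⟩ := params55 10 10 12
  refine ⟨10, 10, nq, C + 160 * c55, Finset.range 12, accX, checker_accX, fun _ _ _ _ h => h.1,
    fun m k M hM => ?_, fun n t M hn hM Ω _ μ _ A hA hm => ?_, fun r n N hn hN B hB =>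
      lower55 (Nat.le_pow_clog (by norm_num) _) hn hN hB⟩
  · obtain ⟨Ω, _, μ, _, A, a1, a2⟩ := upper55 m k M hM
    have h : 160 * c55 * (m + 1) * (k + 1) ≤ (C + 160 * c55) * (m + 1) * (k + 1) := by
      gcongr
      omega
    refine ⟨Ω, _, μ, inferInstance, A, fun ω => ⟨?_, fun I J v hv => (a1 ω).2 I J v (hv.mono h)⟩, a2⟩
    obtain ⟨pr, h1⟩ := (a1 ω).1
    exact ⟨pr, fun I J v => ⟨(h1 I J v).1, fun h2 => (h1 I J v).2.1 fun i hi => h2 i (hi.trans_le h),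
      (h1 I J v).2.2⟩⟩
  by_contra hc
  obtain ⟨e, h1, h2, h3⟩ := hC t
  obtain ⟨K, hK⟩ := core55 h1 h2 (h3.trans ((Nat.pow_le_pow_right (by omega)
    (Nat.mul_le_mul_right _ (Nat.le_add_right _ _))).trans hn))
  have h4 : ∀ k, k ≤ tower k := fun k => by
    induction k with
    | zero => exact Nat.zero_le _
    | succ k ih => exact Nat.lt_two_pow_self.trans_le (Nat.pow_le_pow_right two_pos ih)
  set x := 704 * (K + 3) ^ 3 with hx
  obtain ⟨B, -, b1, b2⟩ := hK _ (Finset.card_range 12).le accX checker_accX M hM Ω μ A hA hm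
    (fun I a1 a2 a3 => not_lt.1 fun h => hc ⟨I, a1, a2, a3, h⟩) (4 * x + 1) _ le_rfl
  have h5 : 11 * (K * (4 * x + 1 + 1) + 3) ^ 2 * (K * (4 * x + 1 + 1) + 3) ≤ tower (4 * x + 1) :=
    calc _ = 11 * (K * (4 * x + 2) + 3) ^ 3 := by ring
      _ ≤ 11 * ((K + 3) * (4 * (x + 1))) ^ 3 := by gcongr; nlinarith
      _ = x * (x + 1) ^ 3 := by rw [mul_pow, mul_pow]; nth_rewrite 2 [hx]; ring
      _ ≤ (x + 1) ^ 4 := by rw [pow_succ' (x + 1) 3]; gcongr; omega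
      _ ≤ (2 ^ x) ^ 4 := Nat.pow_le_pow_left Nat.lt_two_pow_self 4
      _ ≤ 2 ^ tower (4 * x) := by
        rw [← pow_mul, mul_comm]
        exact Nat.pow_le_pow_right two_pos (h4 _)
  obtain ⟨I, -, c1, c2, c3⟩ := lower55 Nat.lt_two_pow_self.le h5 le_rfl b1
  exact c3 (b2 I c1 c2)

end Pool.Agent.Results.MP_559647_lc.ProbeThreshold
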