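import Pool.Agent.Lib.MP_559647_lc.T20Ball
import Pool.Agent.Lib.MP_559647_lc.Derand

/-!
On graphs without a `K_h` minor the deterministic complexity of a locally checkable problem is at
most `T = C (R + p + 1) (log n / log log n + log* N)`, where `R` is the randomized complexity and
`p` the checking radius. It is enough that the balls of radius `T` have no `K_h` minor.
-/

namespace Pool.Agent.Results.MP_559647_lc.TightMinor

open MeasureTheory Pool.Agent.Lib.MP_559647_lc
open scoped ENNReal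

theorem result (h : ℕ) : ∃ C : ℝ, ∀ n N k R p : ℕ, 3 ≤ n → N ≤ tower k → ∃ T : ℕ,
    (T : ℝ) ≤ C * (R + p + 1) * (Real.log n / Real.log (Real.log n) + k) ∧
    ∀ (Ω : Type) [MeasurableSpace Ω] (μ : Measure Ω) [IsProbabilityMeasure μ]
      (Cl : Set (Inst N)) (valid : Inst N → (Fin N → ℕ) → Prop)
      (acc : Inst N → (Fin N → ℕ) → Fin N → Prop) (A : Inst N → (Fin N → Ω) → Fin N → ℕ),
      (∀ I ∈ Cl, I.S.card ≤ n ∧ ∀ v, ¬ CliqueMinor (I.G.induce {x | I.G.edist v x ≤ T}) h) →
      LocalWith p acc → (∀ I ∈ Cl, ∀ o, valid I o ↔ ∀ v ∈ I.S, acc I o v) →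
      LocalWith R A → (∀ I v, Measurable fun a => A I a v) →
      (∀ I ∈ Cl, (Measure.pi fun _ : Fin N => μ) {a | ¬ valid I (A I a)} < 1 / (n : ℝ≥0∞)) →
      ∃ B : Inst N → Fin N → ℕ, DetLocal T B ∧ ∀ I ∈ Cl, valid I (B I) := by
  classical
  obtain ⟨a, ha⟩ := T20.decomp_ball h
  refine ⟨(6 * a + 3) * (2 * a + 1), fun n N k R p hn hN => ?_⟩
  obtain ⟨X, x1, x2, x3⟩ := ha n (by omega)
  set r := R + p with hr
  refine ⟨(6 * a + 3) * (r + 1) * (X + k), ?_, ?_⟩
  · set L := Nat.log 2 n with hL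
    set l := Nat.log 2 L with hl
    have h2 : (3 : ℝ) ≤ n := by exact_mod_cast hn
    have h3 := Real.log_two_gt_d9
    have h3' := Real.log_two_lt_d9
    have h4 : 1 < Real.log n := by
      rw [Real.lt_log_iff_exp_lt (by linarith)]
      linarith [Real.exp_one_lt_d9]
    have h5 : (L : ℝ) * Real.log 2 ≤ Real.log n := by
      rw [← Real.log_pow]
      refine Real.log_le_log (by positivity) ?_
      exact_mod_cast Nat.pow_log_le_self 2 (by omega : n ≠ 0)
    have h6 : Real.log n ≤ (L + 1 : ℕ) * Real.log 2 := by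
      rw [← Real.log_pow]
      refine Real.log_le_log (by positivity) ?_
      exact_mod_cast (Nat.lt_pow_succ_log_self (by norm_num) n).le
    have h7 : ((L + 1 : ℕ) : ℝ) ≤ 2 ^ (l + 1) := by
      exact_mod_cast Nat.lt_pow_succ_log_self (by norm_num : 1 < 2) L
    have h8 : Real.log (Real.log n) ≤ (l + 1 : ℕ) * Real.log 2 := by
      rw [← Real.log_pow]
      refine Real.log_le_log (by linarith) (h6.trans ?_)
      nlinarith [Nat.cast_nonneg (α := ℝ) (L + 1)]
    have h9 := Real.log_pos h4
    have h10 : (X : ℝ) * (l + 1 : ℕ) ≤ a * L := by exact_mod_cast x2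
    have h11 : (X : ℝ) ≤ (2 * a + 1) * (Real.log n / Real.log (Real.log n)) := by
      rw [← mul_div_assoc, le_div_iff₀ h9]
      have e1 : Real.log (Real.log n) ≤ (l + 1 : ℕ) := by
        nlinarith [Nat.cast_nonneg (α := ℝ) (l + 1)]
      have e2 : (L : ℝ) ≤ 2 * Real.log n := by nlinarith [Nat.cast_nonneg (α := ℝ) L]
      calc _ ≤ (X : ℝ) * (l + 1 : ℕ) := by gcongr
        _ ≤ a * (2 * Real.log n) := h10.trans (by gcongr)
        _ ≤ _ := by nlinarith
    have h12 : (k : ℝ) ≤ (2 * a + 1) * k := le_mul_of_one_le_left (by positivity) (by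
      linarith [Nat.cast_nonneg (α := ℝ) a])
    push_cast [hr]
    calc _ ≤ (6 * (a : ℝ) + 3) * (R + p + 1) * ((2 * a + 1) * (Real.log n / Real.log (Real.log n)) +
          (2 * a + 1) * k) := by gcongr
      _ = _ := by ring
  intro Ω _ μ _ Cl valid acc A hCl hacc hvalid hA hmeas hfail
  have hT : r + (a * (X + k) * (2 * r) + X * (2 * (a * (2 * r)) + 2 * r)) ≤
      (6 * a + 3) * (r + 1) * (X + k) := by
    have e1 : r ≤ r * (X + k) := Nat.le_mul_of_pos_right _ (by omega)
    have e2 : X * (2 * (a * (2 * r)) + 2 * r) ≤ (X + k) * (2 * (a * (2 * r)) + 2 * r) :=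
      Nat.mul_le_mul_right _ (by omega)
    calc _ ≤ (6 * a + 3) * r * (X + k) := by nlinarith
      _ ≤ _ := by gcongr; omega
  have hT' := Nat.le_mul_of_pos_left (2 * (a * (2 * r)) + 2 * r) x1
  obtain ⟨c, col, b1, b2, b3⟩ := x3 N k (2 * r) _ Cl hN (by omega) hCl
  let f : Inst N → (Fin N → Ω) → Fin N → ℝ≥0∞ := fun I a u => if acc I (A I a) u then 0 else 1
  have hf : LocalWith r f := by
    intro I J a b v hv hab
    have : acc I (A I a) v = acc J (A J b) v := by
      refine hacc I J _ _ v (hv.mono (by omega)) fun x hx => ?_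
      refine hA I J a b x (hv.shift hx (by omega)) fun y hy => hab y ?_
      exact Near.trans' hx hy (by omega)
    simp only [f, this]
  have hAm : ∀ I, Measurable (A I) := fun I => measurable_pi_lambda _ (hmeas I)
  have hm : ∀ I u, Measurable fun a => f I a u := fun I u =>
    (measurable_of_countable fun o : Fin N → ℕ => if acc I o u then (0 : ℝ≥0∞) else 1).comp (hAm I)
  obtain ⟨w, hw1, hw2⟩ := derand (μ := μ) (C := Cl) (K := X)
    (rad := fun _ => a * (2 * r)) b1 b2 (fun I hI => (b3 I hI).1) (fun I hI => (b3 I hI).2.1)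
    (fun I hI v w => (b3 I hI).2.2 v w trivial trivial) hf hm
  simp only [Finset.sum_const, Finset.card_range, smul_eq_mul] at hw1
  have hB : Loc Cl ((6 * a + 3) * (r + 1) * (X + k)) fun I v => A I (w I) v := by
    intro I hI J hJ v hv
    exact hA I J _ _ v (hv.mono (by omega)) fun x hx => hw1.at hI hJ hv hx (by omega)
  obtain ⟨B, hB1, hB2⟩ := hB.extend
  refine ⟨B, fun I J v hv => hB1 I trivial J trivial v hv, fun I hI => ?_⟩
  have hBI : B I = A I (w I) := funext fun v => hB2 I I hI v (sameView_refl _ _ _)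
  rw [hBI, hvalid I hI]
  set π := Measure.pi fun _ : Fin N => μ with hπ
  have hint : ∀ u ∈ I.S, ∫⁻ a, f I a u ∂π ≤ π {a | ¬ valid I (A I a)} := by
    intro u hu
    have hms : MeasurableSet {a | ¬ valid I (A I a)} :=
      hAm I (MeasurableSet.of_discrete (s := {o | ¬ valid I o}))
    rw [← lintegral_indicator_one hms]
    refine lintegral_mono fun a => ?_
    simp only [f]
    split_ifs with ha
    · exact zero_le
    · rw [Set.indicator_of_mem (by
        intro hv
        exact ha ((hvalid I hI _).1 hv u hu))]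
      exact le_rfl
  have htot : ∑ u ∈ I.S, f I (w I) u < 1 := by
    refine lt_of_le_of_lt ((hw2 I hI).trans (Finset.sum_le_card_nsmul _ _ _ hint)) ?_
    rw [nsmul_eq_mul]
    have hc : (I.S.card : ℝ≥0∞) ≤ n := by exact_mod_cast (hCl I hI).1
    refine lt_of_le_of_lt (mul_le_mul_left hc _) ?_
    rw [mul_comm]
    exact ENNReal.mul_lt_of_lt_div (hfail I hI)
  intro v hv
  by_contra hnot
  have := Finset.single_le_sum (f := fun u => f I (w I) u) (fun _ _ => zero_le) hv
  simp only [f, if_neg hnot] at this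
  exact absurd (lt_of_le_of_lt this htot) (lt_irrefl _)

end Pool.Agent.Results.MP_559647_lc.TightMinor
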