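import Pool.Agent.Lib.MP_559647_lc.W55Main

/-!
A locally checkable labelling problem on forests of bounded degree that has a randomized probe
algorithm with `o(log n)` probes per query has a deterministic algorithm with `O(log* N)`
connected probes per query, which is also a distributed algorithm in as many rounds.
-/

namespace Pool.Agent.Results.MP_559647_lc.TreeVolumeGap

open MeasureTheory Pool.Agent.Lib.MP_559647_lc
open scoped ENNReal

theorem result (Δ p l : ℕ) : ∃ C : ℕ, ∀ n t : ℕ, C ^ (t + 1) ≤ n → ∃ K : ℕ,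
    ∀ (L : Finset ℕ), L.card ≤ l →
      ∀ (acc : (N : ℕ) → Inst N → (Fin N → ℕ) → Fin N → Prop), Checker p acc →
      ∀ (M : ℕ), n ≤ M → ∀ (Ω : Type) [MeasurableSpace Ω] (μ : Measure Ω)
        [IsProbabilityMeasure μ] (A : Ω → Inst M → Fin M → ℕ), (∀ ω, Probes t (A ω)) →
        (∀ I v, Measurable fun ω => A ω I v) →
        (∀ I : Inst M, I.S.card = n → Deg Δ I → I.G.IsAcyclic → (∀ x ∈ I.S, I.inp x ∈ L) →
          μ {ω | ¬ ∀ v ∈ I.S, acc M I (A ω I) v} ≤ 1 / (n : ℝ≥0∞)) →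
        ∀ k N : ℕ, N ≤ tower k → ∃ B : Inst N → Fin N → ℕ, Volume (K * (k + 1)) B ∧
          DetLocal (K * (k + 1)) B ∧ ∀ I : Inst N, Deg Δ I → I.G.IsAcyclic →
            (∀ x ∈ I.S, I.inp x ∈ L) → ∀ v ∈ I.S, acc N I (B I) v := by
  set c := (Δ + 1) ^ p * (2 + (Δ + 1)) + (4 + (Δ + 1) + 2 * p) with hc
  refine ⟨(2 * (12 * (Δ + 1) ^ 3) * (16 + 4 * (Δ + 2 + 2) ^ 2 * (l + 1))) ^ c, fun n t hn => ?_⟩
  have h1 : (Δ + 1) ^ p * (2 + (Δ + 1) * t) ≤ (Δ + 1) ^ p * (2 + (Δ + 1)) * (t + 1) := by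
    rw [mul_assoc]
    exact Nat.mul_le_mul_left _ (by nlinarith)
  have h2 : 2 + (Δ + 1) * t + 2 * (t + p) ≤ (4 + (Δ + 1) + 2 * p) * (t + 1) := by nlinarith
  have h3 : t + 1 ≤ c * (t + 1) := Nat.le_mul_of_pos_left _ (by positivity)
  refine coreT (T := c * (t + 1)) (h1.trans (Nat.mul_le_mul_right _ (Nat.le_add_right _ _)))
    (h2.trans (Nat.mul_le_mul_right _ (Nat.le_add_left _ _))) (le_trans ?_ hn)
  rw [← pow_mul]
  generalize c * (t + 1) = T at h3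
  have h4 : T ≤ 2 ^ T := Nat.lt_two_pow_self.le
  have h5 : 2 ^ T * (T * (T * (t + 1))) ≤ 16 ^ T :=
    calc _ ≤ 2 ^ T * (2 ^ T * (2 ^ T * 2 ^ T)) := by gcongr; omega
      _ = 16 ^ T := by rw [← mul_pow, ← mul_pow, ← mul_pow]; norm_num
  rw [mul_pow (2 * _), mul_pow 2]
  exact Nat.mul_le_mul (Nat.mul_le_mul_right _ (Nat.le_self_pow (by omega) 2))
    ((Nat.add_le_add_right h5 _).trans (pow_add_pow_le (by omega) (by omega) (by omega)))

end Pool.Agent.Results.MP_559647_lc.TreeVolumeGap
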